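import Pool.Agent.H77.SN.Sec5A
import Pool.Agent.H59.Zar.RelNear

/-!
# Section 5: the derivative of the crossing function, m at least 3, by involutivity
-/

set_option autoImplicit false
set_option linter.unusedSectionVars false
set_option linter.unusedVariables false

open scoped InnerProductSpace Topology ContDiff
open Set Filter

namespace Pool.Agent.H58.S5

open Pool.Agent.H91.GE hiding G1 G11 Nondeg Br exists_br cF smooth_cF Cfg mem_TSet_of_map
open Pool.Agent.H59.LV Pool.Agent.H59.ND Pool.Agent.H59.Zar Pool.Agent.H77.SN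

variable {E F : Type*} [NormedAddCommGroup E] [InnerProductSpace ℝ E] [FiniteDimensional ℝ E]
  [NormedAddCommGroup F] [InnerProductSpace ℝ F] [FiniteDimensional ℝ F]
  {S : Set E} {A : E × E → E} {K K₂ : NNReal} {Φ : ℝ → E × E → E × E} {n m : ℕ}

/-- The derivative of the identity `B.1 - ⟪B.1, v⟫ v = ρ (tanv B)` at a crossing, `B` a section of
`Y` with vertical value, in a direction `a` tangent to the unit tangent bundle. -/
theorem deriv_section (h : GFlow F S A K K₂ Φ) {ρ : E × E → ℝ} {O : Set (E × E)}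
    (hr : Rho A Φ S m ρ O) {w : E × E} (hw : w ∈ O) (hU : w ∈ UT S) (h0 : ρ w = 0)
    {B : E × E → E × E} {V : Set (E × E)} (hV : IsOpen V) (hwV : w ∈ V) (hB : ContDiffOn ℝ ∞ B V)
    (hBY : ∀ w' ∈ UT S, w' ∈ V → B w' ∈ YY Φ S w') (hB1 : (B w).1 = 0) {a : E × E}
    (ha : a ∈ ZT (UT S) w) :
    (fderiv ℝ B w a).1 - ⟪(fderiv ℝ B w a).1, w.2⟫_ℝ • w.2 = fderiv ℝ ρ w a • (B w).2 := by
  have hA : ContDiff ℝ ∞ A := h.field.smooth
  set f : E × E → E := fun w' =>
    ((B w').1 - ⟪(B w').1, w'.2⟫_ℝ • w'.2) - ρ w' • tanv A w' (B w') with hf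
  have hsub : V ∩ O ∈ 𝓝 w := (hV.inter hr.isOpen).mem_nhds ⟨hwV, hw⟩
  have hB' : ContDiffOn ℝ ∞ B (V ∩ O) := hB.mono inter_subset_left
  have hB1' : ContDiffOn ℝ ∞ (fun w' => (B w').1) (V ∩ O) := contDiff_fst.comp_contDiffOn hB'
  have hT : ContDiffOn ℝ ∞ (fun w' => tanv A w' (B w')) (V ∩ O) :=
    (contDiff_tanv hA).comp_contDiffOn (contDiffOn_id.prodMk hB')
  have hfs : ContDiffOn ℝ ∞ f (V ∩ O) :=
    (hB1'.sub ((hB1'.inner ℝ contDiff_snd.contDiffOn).smul contDiff_snd.contDiffOn)).sub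
      ((hr.smooth.mono inter_subset_right).smul hT)
  have h1 := fderiv_eq_zero' (R := UT S) hsub hfs (fun q hq hqV => by
    show ((B q).1 - ⟪(B q).1, q.2⟫_ℝ • q.2) - ρ q • tanv A q (B q) = 0
    rw [hr.eq q hqV.2 hq _ (hBY q hq hqV.1), sub_self]) ha
  -- the derivative of `f`
  have dB : HasFDerivAt B (fderiv ℝ B w) w :=
    ((hB.contDiffAt (hV.mem_nhds hwV)).differentiableAt (by simp)).hasFDerivAt
  have dB1 : HasFDerivAt (fun w' => (B w').1)
      ((ContinuousLinearMap.fst ℝ E E).comp (fderiv ℝ B w)) w :=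
    (ContinuousLinearMap.fst ℝ E E).hasFDerivAt.comp w dB
  have d2 : HasFDerivAt (fun w' : E × E => w'.2) (ContinuousLinearMap.snd ℝ E E) w :=
    hasFDerivAt_snd
  have dρ : HasFDerivAt ρ (fderiv ℝ ρ w) w :=
    ((hr.smooth.contDiffAt (hr.isOpen.mem_nhds hw)).differentiableAt (by simp)).hasFDerivAt
  have dT : HasFDerivAt (fun w' => tanv A w' (B w')) (fderiv ℝ (fun w' => tanv A w' (B w')) w) w :=
    ((hT.contDiffAt hsub).differentiableAt (by simp)).hasFDerivAt
  have d3 := (dB1.sub ((dB1.inner ℝ d2).smul d2)).sub (dρ.smul dT)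
  have d4 : HasFDerivAt f _ w := d3
  rw [d4.fderiv] at h1
  have hBw : B w = ((0, (B w).2) : E × E) := Prod.ext hB1 rfl
  have hTw : tanv A w (B w) = (B w).2 := by
    rw [hBw, tanv_vert]
  simp only [ContinuousLinearMap.sub_apply, ContinuousLinearMap.add_apply,
    ContinuousLinearMap.smul_apply, ContinuousLinearMap.smulRight_apply,
    ContinuousLinearMap.comp_apply, ContinuousLinearMap.prod_apply, fderivInnerCLM_apply,
    ContinuousLinearMap.coe_fst', ContinuousLinearMap.coe_snd', hB1, inner_zero_left, zero_smul,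
    zero_add, h0, hTw] at h1
  exact sub_eq_zero.1 h1

/-- **(5.2), `m ≥ 3`**, by involutivity. -/
theorem dvert3 (h : GFlow F S A K K₂ Φ) (hdim : Module.finrank ℝ E = Module.finrank ℝ F + n)
    (hm : 3 ≤ m) {ρ : E × E → ℝ} {O : Set (E × E)} (hr : Rho A Φ S m ρ O) {w : E × E} (hw : w ∈ O)
    (hU : w ∈ UT S) (h0 : ρ w = 0) {k : E × E} (hk : k ∈ YY Φ S w) (hk0 : k.1 = 0) :
    fderiv ℝ ρ w k = 0 := by
  have hR : RetRel Φ (UT S) (2 * n - 1) (RR Φ S) := retRel h hdim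
  have hgood : w ∈ OO Φ S m := hr.good w hw hU
  by_cases hk2 : k = 0
  · rw [hk2, map_zero]
  -- a second vertical vector
  obtain ⟨b, hb, hb1, hli⟩ : ∃ b ∈ YY Φ S w, b.1 = 0 ∧ ∀ c d : ℝ, c • k.2 + d • b.2 = 0 →
      c = 0 ∧ d = 0 := by
    have hd : Module.finrank ℝ (YY Φ S w) = m := hgood.2
    -- the vertical vectors form a hyperplane of `Y`
    let T : YY Φ S w →ₗ[ℝ] ℝ :=
      (innerSL ℝ w.2).toLinearMap ∘ₗ (LinearMap.fst ℝ E E) ∘ₗ (YY Φ S w).subtype
    have h1 := LinearMap.finrank_range_add_finrank_ker T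
    have h2 : Module.finrank ℝ (LinearMap.range T) ≤ 1 := by
      have h3 := Submodule.finrank_le (LinearMap.range T)
      rwa [Module.finrank_self] at h3
    have h3 : 2 ≤ Module.finrank ℝ (LinearMap.ker T) := by omega
    have hkT : (⟨k, hk⟩ : YY Φ S w) ∈ LinearMap.ker T := by
      show ⟪w.2, k.1⟫_ℝ = 0
      rw [hk0, inner_zero_right]
    have h4 : ¬ (LinearMap.ker T ≤ ℝ ∙ (⟨k, hk⟩ : YY Φ S w)) := by
      intro h5
      have h6 := Submodule.finrank_mono h5
      have h7 := finrank_span_le_card (R := ℝ) ({(⟨k, hk⟩ : YY Φ S w)} : Set (YY Φ S w))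
      simp only [Set.toFinset_singleton, Finset.card_singleton] at h7
      omega
    obtain ⟨b, hbT, hbk⟩ := SetLike.not_le_iff_exists.1 h4
    have hb' : ⟪w.2, (b : E × E).1⟫_ℝ = 0 := hbT
    have hb1 : (b : E × E).1 = 0 := by
      rw [hr.vert hw hU h0 b.2, real_inner_comm, hb', zero_smul]
    refine ⟨b, b.2, hb1, fun c d hcd => ?_⟩
    have hd0 : d = 0 := by
      by_contra hd0
      refine hbk (Submodule.mem_span_singleton.2 ⟨-(d⁻¹ * c), ?_⟩)
      apply Subtype.ext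
      show (-(d⁻¹ * c)) • k = (b : E × E)
      refine Prod.ext ?_ ?_
      · show (-(d⁻¹ * c)) • k.1 = (b : E × E).1
        rw [hk0, smul_zero, hb1]
      · show (-(d⁻¹ * c)) • k.2 = (b : E × E).2
        have h8 : d • (b : E × E).2 = -(c • k.2) := by
          rw [eq_neg_iff_add_eq_zero, add_comm]; exact hcd
        rw [← one_smul ℝ (b : E × E).2, ← inv_mul_cancel₀ hd0, mul_smul, h8, smul_neg, smul_smul,
          neg_smul]
    have hc0 : c = 0 := by
      rw [hd0, zero_smul, add_zero] at hcd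
      rcases smul_eq_zero.1 hcd with h9 | h9
      · exact h9
      · exact absurd (Prod.ext hk0 h9) hk2
    exact ⟨hc0, hd0⟩
  -- the sections
  obtain ⟨Q, ⟨O₁, hO₁, hQ⟩, hQe⟩ := hR.exists_projY hgood.1
  obtain ⟨O₂, hO₂sub, hO₂, hw2⟩ := mem_nhds_iff.1 hO₁
  obtain ⟨O₃, hO₃, hw3, hO₃s⟩ := mem_nhdsWithin.1 hQe
  set V : Set (E × E) := O₂ ∩ O₃ with hVdef
  have hV : IsOpen V := hO₂.inter hO₃
  have hwV : w ∈ V := ⟨hw2, hw3⟩
  have hsec : ∀ a : E × E, ContDiffOn ℝ ∞ (fun w' => Q w' a) V := fun a =>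
    ((hQ.mono hO₂sub).clm_apply contDiffOn_const).mono inter_subset_left
  have hsecY : ∀ a : E × E, ∀ w' ∈ UT S, w' ∈ V → Q w' a ∈ YY Φ S w' := fun a w' hw' hV' =>
    (hO₃s ⟨hV'.2, hw'⟩).1 a
  have hQw : ∀ a ∈ YY Φ S w, Q w a = a := (hO₃s ⟨hw3, hU⟩).2
  have hinv := hR.involutive hgood.1 (A := fun w' => Q w' k) (B := fun w' => Q w' b)
    (hV.mem_nhds hwV) (hsec k) (hsec b) (hsecY k) (hsecY b)
  simp only [hQw k hk, hQw b hb] at hinv
  have hkU : k ∈ ZT (UT S) w := hR.Y_le hU hk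
  have hbU : b ∈ ZT (UT S) w := hR.Y_le hU hb
  have e1 := deriv_section h hr hw hU h0 (B := fun w' => Q w' b) hV hwV (hsec b) (hsecY b)
    (by show (Q w b).1 = 0; rw [hQw b hb, hb1]) hkU
  have e2 := deriv_section h hr hw hU h0 (B := fun w' => Q w' k) hV hwV (hsec k) (hsecY k)
    (by show (Q w k).1 = 0; rw [hQw k hk, hk0]) hbU
  simp only [hQw k hk, hQw b hb] at e1 e2
  have e3 := hr.vert hw hU h0 hinv
  rw [Prod.fst_sub, inner_sub_left, sub_smul] at e3
  have e4 : fderiv ℝ ρ w k • b.2 - fderiv ℝ ρ w b • k.2 = 0 := by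
    rw [← e1, ← e2]
    have e5 : ∀ x y p q : E, x - y = p - q → x - p - (y - q) = 0 := by
      intro x y p q hxy
      have : x - p - (y - q) = (x - y) - (p - q) := by abel
      rw [this, hxy, sub_self]
    exact e5 _ _ _ _ e3
  have e6 := hli (-(fderiv ℝ ρ w b)) (fderiv ℝ ρ w k) (by
    rw [← e4, neg_smul]
    abel)
  exact e6.2

end Pool.Agent.H58.S5
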